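import Pool.Agent.Y455.Quad.Vol

/-! The group `ℤ/2 * ℤ/2 * ℤ/2`, realised as the orbifold group of the sphere with three cone
points of order two and one cusp, is generated by rotations and quasi-divides the projective
model of the hyperbolic plane. -/

set_option autoImplicit false

namespace Pool.Agent.Y455.Quad

open Matrix

theorem main :
    ¬ (∀ (n : ℕ), 1 ≤ n →
  ∀ (B W : Type) [Group W] (M : CoxeterMatrix B) (cs : CoxeterSystem M W)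
    (ρ : W →* (Matrix (Fin (n+1)) (Fin (n+1)) ℝ)ˣ),
    Function.Injective ρ →
    (∀ w, (ρ w).val.det = 1 ∨ (ρ w).val.det = -1) →
  ∀ (C : Set (Fin (n+1) → ℝ)),
    IsOpen C → Convex ℝ C → C.Nonempty →
    (∀ x ∈ C, ∀ t : ℝ, 0 < t → t • x ∈ C) →
    (∀ x v : Fin (n+1) → ℝ, v ≠ 0 → ∃ t : ℝ, x + t • v ∉ closure C) →
    (∀ (w : W) (x : Fin (n+1) → ℝ), x ∈ C → (ρ w).val *ᵥ x ∈ C) →
    (∃ ε : ℝ, 0 < ε ∧ ∀ w : W,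
      (∀ i j, |(ρ w).val i j - (1 : Matrix (Fin (n+1)) (Fin (n+1)) ℝ) i j| < ε) → ρ w = 1) →
  ∀ (d : (Fin (n+1) → ℝ) → (Fin (n+1) → ℝ) → ℝ),
    (∀ x y, d x y = (1/2) * Real.log (sInf {t : ℝ | t • y - x ∈ closure C}
                                        * sInf {t : ℝ | t • x - y ∈ closure C})) →
  ∀ (diam : Set (Fin (n+1) → ℝ) → ENNReal),
    (∀ U, diam U = ⨆ x ∈ U, ⨆ y ∈ U, ENNReal.ofReal (d x y)) →
  ∀ (H : Set (Fin (n+1) → ℝ) → ENNReal),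
    (∀ F, H F = ⨆ (r : ℝ) (_ : 0 < r), ⨅ (U : ℕ → Set (Fin (n+1) → ℝ))
        (_ : F ⊆ ⋃ i, U i) (_ : ∀ i, U i ⊆ C ∧ diam (U i) ≤ ENNReal.ofReal r),
        ∑' i, diam (U i) ^ n) →
    (∃ F ⊆ C, (∀ x ∈ C, ∃ w : W, (ρ w).val *ᵥ x ∈ F) ∧ H F < ⊤) →
  (∀ b : B, ∃ α v : Fin (n+1) → ℝ, α ⬝ᵥ v = 2 ∧
      (ρ (cs.simple b)).val = 1 - Matrix.vecMulVec v α) ∧
  (Finite B ∧ ∃ α v : B → Fin (n+1) → ℝ,
     (∀ b, α b ⬝ᵥ v b = 2 ∧ (ρ (cs.simple b)).val = 1 - Matrix.vecMulVec (v b) (α b)) ∧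
     (∃ x : Fin (n+1) → ℝ, ∀ b, α b ⬝ᵥ x < 0) ∧
     (∀ b, ∃ x : Fin (n+1) → ℝ, α b ⬝ᵥ x = 0 ∧ ∀ c, c ≠ b → α c ⬝ᵥ x < 0) ∧
     (∀ w : W, ρ w ≠ 1 → ∀ x : Fin (n+1) → ℝ, (∀ b, α b ⬝ᵥ x < 0) →
        ¬ ∀ b, α b ⬝ᵥ ((ρ w).val *ᵥ x) < 0))) := by
  intro h
  have h1 := h 2 (by norm_num) (Fin 3) M3.Group M3 M3.toCoxeterSystem rR rR_injective det_rR
    C isOpen_C convex_C ⟨_, one_mem_C⟩ smul_mem_C no_line rR_mem_C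
    ⟨1, one_pos, rR_discrete⟩ dd (fun _ _ => rfl) dm (fun _ => rfl) HH (fun _ => rfl)
    ⟨F, fun _ hx => hx.1, exists_mem_F, lt_of_le_of_lt HH_F_le (by
      exact ENNReal.ofNat_lt_top)⟩
  exact not_reflection 0 (h1.1 0)

end Pool.Agent.Y455.Quad
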