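import Mathlib

/-! The cone of positive definite binary quadratic forms in Selling coordinates, and three
rotations by `π` generating a copy of `ℤ/2 * ℤ/2 * ℤ/2`. -/

set_option autoImplicit false

namespace Pool.Agent.Y455.Quad

open Matrix

/-- The quadratic form. -/
def Q (x : Fin 3 → ℝ) : ℝ := x 0 * x 1 + x 1 * x 2 + x 2 * x 0

/-- The sum of the coordinates. -/
def Sg (x : Fin 3 → ℝ) : ℝ := x 0 + x 1 + x 2

/-- The open cone. -/
def C : Set (Fin 3 → ℝ) := {x | 0 < Q x ∧ 0 < Sg x}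

/-- The closed cone. -/
def K : Set (Fin 3 → ℝ) := {x | 0 ≤ Q x ∧ 0 ≤ Sg x}

lemma mem_C (x : Fin 3 → ℝ) : x ∈ C ↔ 0 < Q x ∧ 0 < Sg x := Iff.rfl
lemma mem_K (x : Fin 3 → ℝ) : x ∈ K ↔ 0 ≤ Q x ∧ 0 ≤ Sg x := Iff.rfl

lemma continuous_Q : Continuous Q := by unfold Q; fun_prop
lemma continuous_Sg : Continuous Sg := by unfold Sg; fun_prop

lemma isOpen_C : IsOpen C :=
  (isOpen_lt continuous_const continuous_Q).inter (isOpen_lt continuous_const continuous_Sg)

lemma isClosed_K : IsClosed K :=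
  (isClosed_le continuous_const continuous_Q).inter (isClosed_le continuous_const continuous_Sg)

lemma closure_C : closure C = K := by
  apply Set.Subset.antisymm
  · exact closure_minimal (fun x hx => ⟨hx.1.le, hx.2.le⟩) isClosed_K
  · intro x hx
    rw [Metric.mem_closure_iff]
    intro ε hε
    refine ⟨fun i => x i + ε / 2, ⟨?_, ?_⟩, ?_⟩
    · have h1 := hx.1
      have h2 := hx.2
      have : Q (fun i => x i + ε / 2) = Q x + ε * Sg x + 3 * (ε / 2) ^ 2 := by
        unfold Q Sg; ring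
      rw [this]
      positivity
    · have h2 := hx.2
      have : Sg (fun i => x i + ε / 2) = Sg x + 3 * (ε / 2) := by
        unfold Sg; ring
      rw [this]
      positivity
    · rw [dist_pi_lt_iff hε]
      intro i
      rw [Real.dist_eq]
      have : x i - (x i + ε / 2) = -(ε / 2) := by ring
      rw [this, abs_neg, abs_of_pos (by positivity)]
      linarith

lemma pairs_pos {x : Fin 3 → ℝ} (hx : x ∈ C) :
    0 < x 0 + x 1 ∧ 0 < x 1 + x 2 ∧ 0 < x 2 + x 0 := by
  obtain ⟨h1, h2⟩ := hx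
  unfold Q at h1
  unfold Sg at h2
  have e1 : 0 < (x 0 + x 1) * (x 2 + x 0) := by nlinarith [sq_nonneg (x 0)]
  have e2 : 0 < (x 0 + x 1) * (x 1 + x 2) := by nlinarith [sq_nonneg (x 1)]
  by_cases h : 0 < x 0 + x 1
  · exact ⟨h, (mul_pos_iff_of_pos_left h).mp e2, (mul_pos_iff_of_pos_left h).mp e1⟩
  · exfalso
    push Not at h
    have h3 : x 2 + x 0 < 0 := by
      by_contra h4
      push Not at h4
      nlinarith
    have h4 : x 1 + x 2 < 0 := by
      by_contra h5
      push Not at h5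
      nlinarith
    linarith

lemma convex_C : Convex ℝ C := by
  have hadd : ∀ x y : Fin 3 → ℝ, x ∈ C → y ∈ C → x + y ∈ C := by
    intro x y hx hy
    obtain ⟨p1, p2, p3⟩ := pairs_pos hx
    obtain ⟨q1, q2, q3⟩ := pairs_pos hy
    have hx1 := hx.1
    have hy1 := hy.1
    refine ⟨?_, ?_⟩
    · have hB : 0 < (x 2 + x 0) * (y 0 + y 1) + (y 2 + y 0) * (x 0 + x 1) - 2 * (x 0 * y 0) := by
        set A := (x 2 + x 0) * (y 0 + y 1) with hA
        set B := (y 2 + y 0) * (x 0 + x 1) with hB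
        have hA0 : 0 < A := mul_pos p3 q1
        have hB0 : 0 < B := mul_pos q3 p1
        have hAB : A * B = (x 0 ^ 2 + Q x) * (y 0 ^ 2 + Q y) := by
          rw [hA, hB]; unfold Q; ring
        have h1 : (x 0 * y 0) ^ 2 < A * B := by
          rw [hAB]
          nlinarith [mul_pos hx1 hy1, mul_nonneg (sq_nonneg (x 0)) hy1.le,
            mul_nonneg (sq_nonneg (y 0)) hx1.le]
        have h2 : (2 * (x 0 * y 0)) ^ 2 < (A + B) ^ 2 := by nlinarith [sq_nonneg (A - B)]
        have h3 := abs_lt_of_sq_lt_sq h2 (by positivity)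
        have h4 := (abs_lt.mp h3).2
        linarith
      have hsum : Q (x + y) = Q x + Q y +
          ((x 2 + x 0) * (y 0 + y 1) + (y 2 + y 0) * (x 0 + x 1) - 2 * (x 0 * y 0)) := by
        unfold Q; simp only [Pi.add_apply]; ring
      rw [hsum]
      linarith
    · have : Sg (x + y) = Sg x + Sg y := by unfold Sg; simp only [Pi.add_apply]; ring
      rw [this]
      linarith [hx.2, hy.2]
  have hsm : ∀ (x : Fin 3 → ℝ) (t : ℝ), 0 < t → x ∈ C → t • x ∈ C := by
    intro x t ht hx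
    refine ⟨?_, ?_⟩
    · have : Q (t • x) = t ^ 2 * Q x := by unfold Q; simp only [Pi.smul_apply, smul_eq_mul]; ring
      rw [this]
      exact mul_pos (by positivity) hx.1
    · have : Sg (t • x) = t * Sg x := by unfold Sg; simp only [Pi.smul_apply, smul_eq_mul]; ring
      rw [this]
      exact mul_pos ht hx.2
  intro x hx y hy a b ha hb hab
  rcases ha.eq_or_lt with rfl | ha'
  · have : b = 1 := by linarith
    subst this
    simpa using hy
  · rcases hb.eq_or_lt with rfl | hb'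
    · have : a = 1 := by linarith
      subst this
      simpa using hx
    · exact hadd _ _ (hsm x a ha' hx) (hsm y b hb' hy)

lemma smul_mem_C (x : Fin 3 → ℝ) (hx : x ∈ C) (t : ℝ) (ht : 0 < t) : t • x ∈ C := by
  refine ⟨?_, ?_⟩
  · have : Q (t • x) = t ^ 2 * Q x := by unfold Q; simp only [Pi.smul_apply, smul_eq_mul]; ring
    rw [this]
    exact mul_pos (by positivity) hx.1
  · have : Sg (t • x) = t * Sg x := by unfold Sg; simp only [Pi.smul_apply, smul_eq_mul]; ring
    rw [this]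
    exact mul_pos ht hx.2

lemma one_mem_C : (fun _ => 1 : Fin 3 → ℝ) ∈ C := by
  refine ⟨?_, ?_⟩ <;> norm_num [Q, Sg]

lemma no_line (x v : Fin 3 → ℝ) (hv : v ≠ 0) : ∃ t : ℝ, x + t • v ∉ closure C := by
  rw [closure_C]
  by_cases hs : Sg v = 0
  · -- the form is negative definite on the kernel of `Sg`
    have hQ : Q v < 0 := by
      have h1 : Q v = -((v 0) ^ 2 + (v 1) ^ 2 + (v 2) ^ 2) / 2 := by
        unfold Q
        unfold Sg at hs
        have : v 2 = - v 0 - v 1 := by linarith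
        rw [this]; ring
      have h2 : 0 < (v 0) ^ 2 + (v 1) ^ 2 + (v 2) ^ 2 := by
        by_contra h
        push Not at h
        apply hv
        have h0 : v 0 = 0 := by nlinarith [sq_nonneg (v 0), sq_nonneg (v 1), sq_nonneg (v 2)]
        have h1 : v 1 = 0 := by nlinarith [sq_nonneg (v 0), sq_nonneg (v 1), sq_nonneg (v 2)]
        have h2 : v 2 = 0 := by nlinarith [sq_nonneg (v 0), sq_nonneg (v 1), sq_nonneg (v 2)]
        ext i
        fin_cases i
        · exact h0
        · exact h1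
        · exact h2
      rw [h1]
      linarith
    -- quadratic in t
    set b : ℝ := x 0 * (v 1 + v 2) + x 1 * (v 0 + v 2) + x 2 * (v 0 + v 1) with hb
    have hform : ∀ t : ℝ, Q (x + t • v) = Q x + t * b + t ^ 2 * Q v := by
      intro t
      unfold Q
      simp only [Pi.add_apply, Pi.smul_apply, smul_eq_mul, hb]
      ring
    refine ⟨(|Q x| + |b| + 1) / (-Q v) + 1, ?_⟩
    rintro ⟨h, -⟩
    rw [hform] at h
    set q : ℝ := -Q v with hq
    have hq0 : 0 < q := by linarith
    set t : ℝ := (|Q x| + |b| + 1) / q + 1 with ht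
    have ht1 : 1 ≤ t := by
      rw [ht]
      have : 0 ≤ (|Q x| + |b| + 1) / q := by positivity
      linarith
    have ht2 : |Q x| + |b| + 1 ≤ t * q := by
      rw [ht, add_mul, div_mul_cancel₀ _ hq0.ne']
      nlinarith
    have hQv : Q v = -q := by rw [hq]; ring
    rw [hQv] at h
    have h3 : Q x ≤ |Q x| := le_abs_self _
    have h4 : b ≤ |b| := le_abs_self _
    have h5 : t * b ≤ t * |b| := mul_le_mul_of_nonneg_left h4 (by linarith)
    have h6 : |Q x| ≤ t * |Q x| := by nlinarith [abs_nonneg (Q x)]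
    nlinarith
  · refine ⟨-(Sg x + 1) / Sg v, ?_⟩
    rintro ⟨-, h⟩
    have : Sg (x + (-(Sg x + 1) / Sg v) • v) = -1 := by
      have h1 : Sg (x + (-(Sg x + 1) / Sg v) • v) = Sg x + (-(Sg x + 1) / Sg v) * Sg v := by
        unfold Sg; simp only [Pi.add_apply, Pi.smul_apply, smul_eq_mul]; ring
      rw [h1, div_mul_cancel₀ _ hs]
      ring
    rw [this] at h
    linarith

/-- The three involutions. -/
def gZ : Fin 3 → Matrix (Fin 3) (Fin 3) ℤ :=
  ![!![-1, 0, 0; 2, 0, 1; 2, 1, 0], !![0, 2, 1; 0, -1, 0; 1, 2, 0], !![0, 1, 2; 1, 0, 2; 0, 0, -1]]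

lemma gZ_sq (i : Fin 3) : gZ i * gZ i = 1 := by
  fin_cases i <;> decide

/-- The involutions as units. -/
def uZ (i : Fin 3) : (Matrix (Fin 3) (Fin 3) ℤ)ˣ := ⟨gZ i, gZ i, gZ_sq i, gZ_sq i⟩

/-- The Coxeter matrix of `ℤ/2 * ℤ/2 * ℤ/2`. -/
def M3 : CoxeterMatrix (Fin 3) where
  M := fun i j => if i = j then 1 else 0
  isSymm := by decide
  diagonal := by decide
  off_diagonal := by decide

lemma isLiftable : M3.IsLiftable uZ := by
  intro i j
  by_cases h : i = j
  · subst h
    have : M3 i i = 1 := M3.diagonal i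
    rw [this, pow_one]
    ext1
    exact gZ_sq i
  · have : M3 i j = 0 := if_neg h
    rw [this, pow_zero]

/-- The representation over `ℤ`. -/
noncomputable def rZ : M3.Group →* (Matrix (Fin 3) (Fin 3) ℤ)ˣ :=
  M3.toCoxeterSystem.lift ⟨uZ, isLiftable⟩

lemma rZ_simple (i : Fin 3) : rZ (M3.toCoxeterSystem.simple i) = uZ i :=
  CoxeterSystem.lift_apply_simple _ isLiftable i

/-- The representation over `ℝ`. -/
noncomputable def rR : M3.Group →* (Matrix (Fin 3) (Fin 3) ℝ)ˣ :=
  (Units.map ((Int.castRingHom ℝ).mapMatrix : Matrix (Fin 3) (Fin 3) ℤ →+*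
    Matrix (Fin 3) (Fin 3) ℝ).toMonoidHom).comp rZ

lemma rR_apply (w : M3.Group) (i j : Fin 3) : (rR w).val i j = ((rZ w).val i j : ℝ) := rfl

/-- The involutions over `ℝ`. -/
def act (i : Fin 3) (x : Fin 3 → ℝ) : Fin 3 → ℝ :=
  (gZ i).map (Int.cast : ℤ → ℝ) *ᵥ x

lemma rR_simple (i : Fin 3) (x : Fin 3 → ℝ) :
    (rR (M3.toCoxeterSystem.simple i)).val *ᵥ x = act i x := by
  have : (rR (M3.toCoxeterSystem.simple i)).val = (gZ i).map (Int.cast : ℤ → ℝ) := by
    ext a b
    rw [rR_apply, rZ_simple]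
    rfl
  rw [this, act]

lemma act0 (x : Fin 3 → ℝ) : act 0 x = ![-x 0, x 2 + 2 * x 0, x 1 + 2 * x 0] := by
  ext i
  fin_cases i <;> simp [act, gZ, Matrix.mulVec, dotProduct, Fin.sum_univ_three] <;> ring

lemma act1 (x : Fin 3 → ℝ) : act 1 x = ![x 2 + 2 * x 1, -x 1, x 0 + 2 * x 1] := by
  ext i
  fin_cases i <;> simp [act, gZ, Matrix.mulVec, dotProduct, Fin.sum_univ_three] <;> ring

lemma act2 (x : Fin 3 → ℝ) : act 2 x = ![x 1 + 2 * x 2, x 0 + 2 * x 2, -x 2] := by
  ext i
  fin_cases i <;> simp [act, gZ, Matrix.mulVec, dotProduct, Fin.sum_univ_three]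

lemma Q_act (i : Fin 3) (x : Fin 3 → ℝ) : Q (act i x) = Q x := by
  fin_cases i
  · change Q (act 0 x) = _
    rw [act0]; unfold Q; simp; ring
  · change Q (act 1 x) = _
    rw [act1]; unfold Q; simp; ring
  · change Q (act 2 x) = _
    rw [act2]; unfold Q; simp; ring

lemma Sg_act (i : Fin 3) (x : Fin 3 → ℝ) : Sg (act i x) = Sg x + 2 * x i := by
  fin_cases i
  · change Sg (act 0 x) = _
    rw [act0]; unfold Sg; simp; ring
  · change Sg (act 1 x) = _
    rw [act1]; unfold Sg; simp; ring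
  · change Sg (act 2 x) = _
    rw [act2]; unfold Sg; simp; ring

lemma act_self (i : Fin 3) (x : Fin 3 → ℝ) : act i x i = - x i := by
  fin_cases i
  · change act 0 x 0 = _
    rw [act0]; simp
  · change act 1 x 1 = _
    rw [act1]; simp
  · change act 2 x 2 = _
    rw [act2]; simp

lemma Sg_add_two_pos {x : Fin 3 → ℝ} (hx : x ∈ C) (i : Fin 3) : 0 < Sg x + 2 * x i := by
  obtain ⟨p1, p2, p3⟩ := pairs_pos hx
  have h1 := hx.1
  unfold Q at h1
  unfold Sg
  have key : ∀ a b c : ℝ, 0 < a + b → 0 < b + c → 0 < c + a → 0 < a * b + b * c + c * a →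
      0 < a + b + c + 2 * a := by
    intro a b c h1 h2 h3 h4
    by_contra h
    push Not at h
    have : a < 0 := by linarith
    nlinarith [mul_pos h1 h3, mul_pos h1 h2, mul_pos h2 h3]
  fin_cases i
  · exact key _ _ _ p1 p2 p3 h1
  · have := key (x 1) (x 2) (x 0) p2 p3 p1 (by linarith)
    change 0 < x 0 + x 1 + x 2 + 2 * x 1
    linarith
  · have := key (x 2) (x 0) (x 1) p3 p1 p2 (by linarith)
    change 0 < x 0 + x 1 + x 2 + 2 * x 2
    linarith

lemma act_mem_C {x : Fin 3 → ℝ} (hx : x ∈ C) (i : Fin 3) : act i x ∈ C :=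
  ⟨by rw [Q_act]; exact hx.1, by rw [Sg_act]; exact Sg_add_two_pos hx i⟩

lemma rR_mul (v w : M3.Group) (x : Fin 3 → ℝ) :
    (rR (v * w)).val *ᵥ x = (rR v).val *ᵥ ((rR w).val *ᵥ x) := by
  rw [map_mul, Units.val_mul, Matrix.mulVec_mulVec]

lemma rR_mem_C (w : M3.Group) : ∀ x ∈ C, (rR w).val *ᵥ x ∈ C := by
  refine M3.toCoxeterSystem.simple_induction_left
    (p := fun w => ∀ x ∈ C, (rR w).val *ᵥ x ∈ C) w ?_ ?_
  · intro x hx
    simpa using hx
  · intro w i ih x hx
    rw [rR_mul, rR_simple]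
    exact act_mem_C (ih x hx) i

end Pool.Agent.Y455.Quad
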