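import Pool.Agent.Y455.Quad.Cone

/-! Faithfulness, discreteness and a fundamental domain. -/

set_option autoImplicit false

namespace Pool.Agent.Y455.Quad

open Matrix


lemma exists_chain (ω : List (Fin 3)) : ∃ ω' : List (Fin 3), ω'.IsChain (· ≠ ·) ∧
    M3.toCoxeterSystem.wordProd ω' = M3.toCoxeterSystem.wordProd ω := by
  induction ω with
  | nil => exact ⟨[], by simp, rfl⟩
  | cons i τ ih =>
    obtain ⟨τ', h1, h2⟩ := ih
    cases τ' with
    | nil =>
      refine ⟨[i], by simp, ?_⟩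
      rw [CoxeterSystem.wordProd_cons, CoxeterSystem.wordProd_cons, h2]
    | cons j σ =>
      by_cases hij : i = j
      · subst hij
        refine ⟨σ, h1.tail, ?_⟩
        rw [CoxeterSystem.wordProd_cons, ← h2, CoxeterSystem.wordProd_cons,
          CoxeterSystem.simple_mul_simple_cancel_left]
      · refine ⟨i :: j :: σ, ?_, ?_⟩
        · rw [List.isChain_cons_cons]
          exact ⟨hij, h1⟩
        · rw [CoxeterSystem.wordProd_cons, h2, CoxeterSystem.wordProd_cons _ i τ]

lemma two_neg {x : Fin 3 → ℝ} (hx : x ∈ C) {i j : Fin 3} (hij : i ≠ j) (h : x i < 0) :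
    0 < x j := by
  obtain ⟨p1, p2, p3⟩ := pairs_pos hx
  fin_cases i <;> fin_cases j <;> simp_all <;> linarith

/-- Ping-pong. -/
lemma pingpong (ω : List (Fin 3)) (i : Fin 3) (h : (i :: ω).IsChain (· ≠ ·)) :
    ((rR (M3.toCoxeterSystem.wordProd (i :: ω))).val *ᵥ (fun _ => (1 : ℝ))) i < 0 := by
  induction ω generalizing i with
  | nil =>
    rw [CoxeterSystem.wordProd_cons, CoxeterSystem.wordProd_nil, mul_one, rR_simple, act_self]
    norm_num
  | cons j σ ih =>
    rw [List.isChain_cons_cons] at h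
    have h1 := ih j h.2
    rw [CoxeterSystem.wordProd_cons, rR_mul, rR_simple, act_self]
    have h2 : (rR (M3.toCoxeterSystem.wordProd (j :: σ))).val *ᵥ (fun _ => (1 : ℝ)) ∈ C :=
      rR_mem_C _ _ one_mem_C
    have h3 := two_neg h2 (Ne.symm h.1) h1
    linarith

lemma rR_eq_one {w : M3.Group} (h : rR w = 1) : w = 1 := by
  obtain ⟨ω, rfl⟩ := M3.toCoxeterSystem.wordProd_surjective w
  obtain ⟨ω', h1, h2⟩ := exists_chain ω
  rw [← h2] at h ⊢
  cases ω' with
  | nil => simp
  | cons i σ =>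
    exfalso
    have h3 := pingpong σ i h1
    rw [h] at h3
    simp at h3
    linarith

lemma rR_injective : Function.Injective rR := by
  rw [injective_iff_map_eq_one]
  intro w hw
  exact rR_eq_one hw

lemma rR_discrete (w : M3.Group)
    (h : ∀ i j, |(rR w).val i j - (1 : Matrix (Fin 3) (Fin 3) ℝ) i j| < 1) : rR w = 1 := by
  apply Units.ext
  ext i j
  have h1 := h i j
  rw [rR_apply] at h1 ⊢
  have h2 : (1 : Matrix (Fin 3) (Fin 3) ℝ) i j = ((1 : Matrix (Fin 3) (Fin 3) ℤ) i j : ℝ) := by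
    rw [Matrix.one_apply, Matrix.one_apply]
    split_ifs <;> simp
  rw [Units.val_one]
  rw [h2] at h1 ⊢
  have h3 : |(rZ w).val i j - (1 : Matrix (Fin 3) (Fin 3) ℤ) i j| < 1 := by exact_mod_cast h1
  have h4 := Int.abs_lt_one_iff.mp h3
  rw [sub_eq_zero.mp h4]

lemma det_rR (w : M3.Group) : (rR w).val.det = 1 ∨ (rR w).val.det = -1 := by
  have h : IsUnit (rZ w).val.det := (Matrix.isUnit_iff_isUnit_det _).mp (rZ w).isUnit
  have h2 : (rR w).val.det = ((rZ w).val.det : ℝ) := by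
    have : (rR w).val = (Int.castRingHom ℝ).mapMatrix (rZ w).val := rfl
    rw [this, ← RingHom.map_det]
    rfl
  rw [h2]
  rcases Int.isUnit_iff.mp h with h | h
  · left; rw [h]; simp
  · right; rw [h]; simp

/-- The fundamental domain. -/
def F : Set (Fin 3 → ℝ) := {x | x ∈ C ∧ ∀ i, 0 ≤ x i}

/-- The integral linear form `x ↦ Sg (w x)`. -/
noncomputable def psi (w : M3.Group) (j : Fin 3) : ℤ := ∑ i, (rZ w).val i j

lemma Sg_rR (w : M3.Group) (x : Fin 3 → ℝ) :
    Sg ((rR w).val *ᵥ x) = ∑ j, (psi w j : ℝ) * x j := by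
  unfold Sg psi
  simp only [Matrix.mulVec, dotProduct, Fin.sum_univ_three, rR_apply]
  push_cast
  ring

lemma exists_mem_F (x : Fin 3 → ℝ) (hx : x ∈ C) : ∃ w : M3.Group, (rR w).val *ᵥ x ∈ F := by
  classical
  -- a ball around `x` inside `C`
  obtain ⟨δ, hδ, hball⟩ := Metric.isOpen_iff.mp isOpen_C x hx
  have hpert : ∀ (j : Fin 3) (s : ℝ), |s| ≤ δ / 2 → x + Pi.single j s ∈ C := by
    intro j s hs
    apply hball
    rw [Metric.mem_ball, dist_pi_lt_iff hδ]
    intro i
    rw [Real.dist_eq]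
    by_cases hij : i = j
    · subst hij
      simp
      linarith
    · simp [hij, hδ]
  have hbound : ∀ (w : M3.Group) (j : Fin 3),
      |(psi w j : ℝ)| * (δ / 2) ≤ Sg ((rR w).val *ᵥ x) := by
    intro w j
    have h1 : ∀ s : ℝ, |s| ≤ δ / 2 → 0 < Sg ((rR w).val *ᵥ x) + (psi w j : ℝ) * s := by
      intro s hs
      have h2 := (rR_mem_C w _ (hpert j s hs)).2
      rw [Sg_rR] at h2 ⊢
      have h3 : ∑ k, (psi w k : ℝ) * (x + Pi.single j s : Fin 3 → ℝ) k =
          ∑ k, (psi w k : ℝ) * x k + (psi w j : ℝ) * s := by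
        simp only [Pi.add_apply, mul_add, Finset.sum_add_distrib]
        congr 1
        rw [Finset.sum_eq_single j]
        · simp
        · intro b _ hb
          simp [hb]
        · simp
      rw [h3] at h2
      exact h2
    rcases abs_cases (psi w j : ℝ) with ⟨h, -⟩ | ⟨h, -⟩
    · have := h1 (-(δ / 2)) (by rw [abs_neg, abs_of_pos (by positivity)])
      rw [h]; linarith
    · have := h1 (δ / 2) (by rw [abs_of_pos (by positivity)])
      rw [h]; linarith
  -- the set of values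
  let N : ℤ := ⌈Sg x / (δ / 2)⌉
  let T : Set (Fin 3 → ℤ) := {p | (∀ j, |p j| ≤ N) ∧ ∃ w, p = psi w}
  have hTfin : T.Finite := by
    apply Set.Finite.subset (Set.finite_Icc (fun _ => -N : Fin 3 → ℤ) (fun _ => N))
    rintro p ⟨hp, -⟩
    exact ⟨fun j => (abs_le.mp (hp j)).1, fun j => (abs_le.mp (hp j)).2⟩
  have hin : ∀ w : M3.Group, Sg ((rR w).val *ᵥ x) ≤ Sg x → psi w ∈ T := by
    intro w hw
    refine ⟨fun j => ?_, w, rfl⟩
    have h1 := (hbound w j).trans hw
    have h2 : |(psi w j : ℝ)| ≤ Sg x / (δ / 2) := by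
      rw [le_div_iff₀ (by positivity)]
      exact h1
    have h3 : ((|psi w j| : ℤ) : ℝ) ≤ (N : ℝ) := by
      push_cast
      exact h2.trans (Int.le_ceil _)
    exact_mod_cast h3
  have hne : T.Nonempty := ⟨psi 1, hin 1 (by simp)⟩
  obtain ⟨p, hpT, hmin⟩ := hTfin.exists_minimalFor (fun p : Fin 3 → ℤ => ∑ j, (p j : ℝ) * x j) T hne
  obtain ⟨-, w, rfl⟩ := hpT
  have hmin' : ∀ v : M3.Group, psi v ∈ T →
      Sg ((rR w).val *ᵥ x) ≤ Sg ((rR v).val *ᵥ x) := by
    intro v hv
    rw [Sg_rR, Sg_rR]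
    rcases le_total (∑ j, (psi v j : ℝ) * x j) (∑ j, (psi w j : ℝ) * x j) with h | h
    · exact hmin hv h
    · exact h
  have hminw : ∀ v : M3.Group, Sg ((rR w).val *ᵥ x) ≤ Sg ((rR v).val *ᵥ x) := by
    intro v
    by_cases hv : psi v ∈ T
    · exact hmin' v hv
    · have h1 : Sg x < Sg ((rR v).val *ᵥ x) := by
        by_contra h
        push Not at h
        exact hv (hin v h)
      have h3 : Sg ((rR 1).val *ᵥ x) ≤ Sg x := by simp
      have h2 := hmin' 1 (hin 1 h3)
      linarith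
  refine ⟨w, rR_mem_C w x hx, ?_⟩
  intro i
  by_contra hneg
  push Not at hneg
  have h1 := hminw (M3.toCoxeterSystem.simple i * w)
  rw [rR_mul, rR_simple, Sg_act] at h1
  linarith

lemma not_reflection (i : Fin 3) : ¬ ∃ α v : Fin 3 → ℝ, α ⬝ᵥ v = 2 ∧
      (rR (M3.toCoxeterSystem.simple i)).val = 1 - Matrix.vecMulVec v α := by
  rintro ⟨α, v, h1, h2⟩
  have h3 := congrArg Matrix.trace h2
  rw [Matrix.trace_sub, Matrix.trace_vecMulVec, Matrix.trace_one] at h3
  have h4 : (rR (M3.toCoxeterSystem.simple i)).val.trace = -1 := by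
    have : (rR (M3.toCoxeterSystem.simple i)).val = (gZ i).map (Int.cast : ℤ → ℝ) := by
      ext a b
      rw [rR_apply, rZ_simple]
      rfl
    rw [this, Matrix.trace_fin_three]
    fin_cases i <;> simp [gZ]
  rw [h4, dotProduct_comm, h1] at h3
  norm_num at h3

end Pool.Agent.Y455.Quad
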