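import Pool.Agent.Y455.Quad.Cone
import Pool.Agent.Y455.Quad.Group

/-! The Hilbert volume of the fundamental domain is finite. -/

set_option autoImplicit false

namespace Pool.Agent.Y455.Quad

open Matrix

/-- The Hilbert distance. -/
noncomputable def dd (x y : Fin 3 → ℝ) : ℝ :=
  (1/2) * Real.log (sInf {t : ℝ | t • y - x ∈ closure C} * sInf {t : ℝ | t • x - y ∈ closure C})

lemma Sg_smul_sub (a : ℝ) (x y : Fin 3 → ℝ) : Sg (a • y - x) = a * Sg y - Sg x := by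
  unfold Sg; simp only [Pi.sub_apply, Pi.smul_apply, smul_eq_mul]; ring

lemma sInf_bounds {x y : Fin 3 → ℝ} (hx : x ∈ C) (hy : y ∈ C) {a : ℝ} (ha : a • y - x ∈ K) :
    0 ≤ sInf {t : ℝ | t • y - x ∈ closure C} ∧ sInf {t : ℝ | t • y - x ∈ closure C} ≤ a := by
  have hlow : ∀ t ∈ {t : ℝ | t • y - x ∈ closure C}, 0 ≤ t := by
    intro t ht
    change t • y - x ∈ closure C at ht
    rw [closure_C] at ht
    have h1 := ht.2
    rw [Sg_smul_sub] at h1
    by_contra hneg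
    push Not at hneg
    nlinarith [hx.2, hy.2]
  have hmem : a ∈ {t : ℝ | t • y - x ∈ closure C} := by
    change a • y - x ∈ closure C
    rw [closure_C]; exact ha
  exact ⟨le_csInf ⟨a, hmem⟩ hlow, csInf_le ⟨0, hlow⟩ hmem⟩

lemma dd_le {x y : Fin 3 → ℝ} (hx : x ∈ C) (hy : y ∈ C) {a b ε : ℝ} (hε : 0 ≤ ε)
    (ha : a • y - x ∈ K) (hb : b • x - y ∈ K) (hab : a * b ≤ (1 + ε) ^ 2) :
    dd x y ≤ ε := by
  obtain ⟨h1, h2⟩ := sInf_bounds hx hy ha
  obtain ⟨h3, h4⟩ := sInf_bounds hy hx hb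
  unfold dd
  set m1 := sInf {t : ℝ | t • y - x ∈ closure C}
  set m2 := sInf {t : ℝ | t • x - y ∈ closure C}
  have h5 : m1 * m2 ≤ (1 + ε) ^ 2 := (mul_le_mul h2 h4 h3 (h1.trans h2)).trans hab
  have h6 : 0 ≤ m1 * m2 := mul_nonneg h1 h3
  rcases h6.eq_or_lt with h7 | h7
  · rw [← h7, Real.log_zero]; linarith
  · have h8 : Real.log (m1 * m2) ≤ Real.log ((1 + ε) ^ 2) := Real.log_le_log h7 h5
    rw [Real.log_pow] at h8
    have h9 : Real.log (1 + ε) ≤ ε := by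
      have := Real.log_le_sub_one_of_pos (show 0 < 1 + ε by linarith)
      linarith
    push_cast at h8
    linarith

lemma Q_cyc (p : Fin 3) (x : Fin 3 → ℝ) :
    Q x = x p * x (p + 1) + x (p + 1) * x (p + 2) + x (p + 2) * x p := by
  fin_cases p <;> simp [Q] <;> ring

lemma Sg_cyc (p : Fin 3) (x : Fin 3 → ℝ) : Sg x = x p + x (p + 1) + x (p + 2) := by
  fin_cases p <;> simp [Sg] <;> ring

lemma core_ineq (s h v w v' w' : ℝ) (hs0 : 0 < s) (hs2 : s ≤ 2) (hh : 0 ≤ h)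
    (hv' : 0 ≤ v') (hw' : 0 ≤ w') (hv1 : v' ≤ 1) (hw1 : w' ≤ 1)
    (hτ1 : s ^ 2 / 4 ≤ v' + w') (hτ2 : v' + w' ≤ s ^ 2)
    (hdτ : |(v' + w') - (v + w)| ≤ s ^ 3 * h) (hdv : |v' - v| ≤ s ^ 2 * h) :
    0 ≤ (16 * s * h) ^ 2 * (v' + w' + v' * w') +
      (16 * s * h) * (((v' + w') - (v + w)) * (1 + v') + (v' - v) * (w' - v')) +
      (v' - v) * (((v' + w') - (v + w)) - (v' - v)) := by
  set A := (v' + w') - (v + w) with hA
  set D := v' - v with hD
  have hs3 : 0 ≤ s ^ 3 * h := by positivity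
  have hs2' : 0 ≤ s ^ 2 * h := by positivity
  have hwv : |w' - v'| ≤ s := by
    rw [abs_le]
    rcases le_total s 1 with h1 | h1
    · have : s ^ 2 ≤ s := by nlinarith
      constructor <;> linarith
    · constructor <;> linarith
  have e1 : 64 * s ^ 4 * h ^ 2 ≤ (16 * s * h) ^ 2 * (v' + w' + v' * w') := by
    have : (16 * s * h) ^ 2 * (s ^ 2 / 4) ≤ (16 * s * h) ^ 2 * (v' + w' + v' * w') := by
      apply mul_le_mul_of_nonneg_left _ (by positivity)
      nlinarith [mul_nonneg hv' hw']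
    calc 64 * s ^ 4 * h ^ 2 = (16 * s * h) ^ 2 * (s ^ 2 / 4) := by ring
      _ ≤ _ := this
  have e2 : |A * (1 + v') + D * (w' - v')| ≤ 3 * (s ^ 3 * h) := by
    calc |A * (1 + v') + D * (w' - v')| ≤ |A * (1 + v')| + |D * (w' - v')| := abs_add_le _ _
      _ = |A| * |1 + v'| + |D| * |w' - v'| := by rw [abs_mul, abs_mul]
      _ ≤ (s ^ 3 * h) * 2 + (s ^ 2 * h) * s := by
          apply add_le_add
          · apply mul_le_mul hdτ _ (abs_nonneg _) hs3
            rw [abs_of_nonneg (by linarith)]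
            linarith
          · exact mul_le_mul hdv hwv (abs_nonneg _) hs2'
      _ = 3 * (s ^ 3 * h) := by ring
  have e3 : -(48 * s ^ 4 * h ^ 2) ≤ (16 * s * h) * (A * (1 + v') + D * (w' - v')) := by
    have h1 := (abs_le.mp e2).1
    have h2 : 0 ≤ 16 * s * h := by positivity
    have h3 := mul_le_mul_of_nonneg_left h1 h2
    calc -(48 * s ^ 4 * h ^ 2) = (16 * s * h) * -(3 * (s ^ 3 * h)) := by ring
      _ ≤ _ := h3
  have e4 : -(3 * s ^ 4 * h ^ 2) ≤ D * (A - D) := by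
    have h1 : |D * A| ≤ (s ^ 2 * h) * (s ^ 3 * h) := by
      rw [abs_mul]; exact mul_le_mul hdv hdτ (abs_nonneg _) hs2'
    have h2 : D ^ 2 ≤ (s ^ 2 * h) ^ 2 := by
      rw [← sq_abs D]
      exact pow_le_pow_left₀ (abs_nonneg _) hdv 2
    have h3 := (abs_le.mp h1).1
    have h4 : (s ^ 2 * h) * (s ^ 3 * h) ≤ 2 * s ^ 4 * h ^ 2 := by
      have : (s ^ 2 * h) * (s ^ 3 * h) = s * (s ^ 4 * h ^ 2) := by ring
      rw [this]
      have : 0 ≤ s ^ 4 * h ^ 2 := by positivity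
      nlinarith
    have h5 : (s ^ 2 * h) ^ 2 = s ^ 4 * h ^ 2 := by ring
    rw [h5] at h2
    have h6 : D * (A - D) = D * A - D ^ 2 := by ring
    rw [h6]
    linarith
  have e5 : 0 ≤ s ^ 4 * h ^ 2 := by positivity
  linarith

/-- The boxes of the cover. -/
def Box (s h τ0 v0 : ℝ) (p : Fin 3) : Set (Fin 3 → ℝ) :=
  {x | x ∈ C ∧ 0 ≤ x (p + 1) ∧ 0 ≤ x (p + 2) ∧ x (p + 1) ≤ x p ∧ x (p + 2) ≤ x p ∧
    s ^ 2 / 4 * x p ≤ x (p + 1) + x (p + 2) ∧ x (p + 1) + x (p + 2) ≤ s ^ 2 * x p ∧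
    τ0 * x p ≤ x (p + 1) + x (p + 2) ∧ x (p + 1) + x (p + 2) ≤ (τ0 + s ^ 3 * h) * x p ∧
    v0 * x p ≤ x (p + 1) ∧ x (p + 1) ≤ (v0 + s ^ 2 * h) * x p}

lemma box_aux {s h τ0 v0 : ℝ} {p : Fin 3} (hs0 : 0 < s) (hs2 : s ≤ 2) (hh : 0 ≤ h)
    {x y : Fin 3 → ℝ} (hx : x ∈ Box s h τ0 v0 p) (hy : y ∈ Box s h τ0 v0 p) :
    0 < x p ∧ ((1 + 16 * s * h) * (x p / y p)) • y - x ∈ K := by
  have hpos : ∀ z ∈ Box s h τ0 v0 p, 0 < z p := by
    intro z hz
    obtain ⟨hzC, h1, h2, h3, h4, -⟩ := hz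
    have h5 : 0 ≤ z p := h1.trans h3
    rcases h5.eq_or_lt with h6 | h6
    · exfalso
      have h7 : z (p + 1) = 0 := by linarith
      have h8 : z (p + 2) = 0 := by linarith
      have h9 := hzC.1
      rw [Q_cyc p, h7, h8, ← h6] at h9
      simp at h9
    · exact h6
  have hX := hpos x hx
  have hY := hpos y hy
  refine ⟨hX, ?_⟩
  obtain ⟨-, x1, x2, x3, x4, x5, x6, x7, x8, x9, x10⟩ := hx
  obtain ⟨-, y1, y2, y3, y4, y5, y6, y7, y8, y9, y10⟩ := hy
  set X := x p with hXdef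
  set Y := y p with hYdef
  obtain ⟨v, hv⟩ : ∃ v, x (p + 1) = v * X := ⟨x (p + 1) / X, by field_simp⟩
  obtain ⟨w, hw⟩ : ∃ w, x (p + 2) = w * X := ⟨x (p + 2) / X, by field_simp⟩
  obtain ⟨v', hv'⟩ : ∃ v', y (p + 1) = v' * Y := ⟨y (p + 1) / Y, by field_simp⟩
  obtain ⟨w', hw'⟩ : ∃ w', y (p + 2) = w' * Y := ⟨y (p + 2) / Y, by field_simp⟩
  rw [hv, hw] at x5 x6 x7 x8
  rw [hv] at x1 x3 x9 x10
  rw [hw] at x2 x4
  rw [hv', hw'] at y5 y6 y7 y8
  rw [hv'] at y1 y3 y9 y10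
  rw [hw'] at y2 y4
  have c : ∀ {a b Z : ℝ}, 0 < Z → a * Z ≤ b * Z → a ≤ b := fun hZ h => le_of_mul_le_mul_right h hZ
  have c1 : ∀ {b Z : ℝ}, 0 < Z → 0 ≤ b * Z → 0 ≤ b := fun hZ h =>
    nonneg_of_mul_nonneg_left h hZ
  have X5 : s ^ 2 / 4 ≤ v + w := c hX (by linarith)
  have X6 : v + w ≤ s ^ 2 := c hX (by linarith)
  have X7 : τ0 ≤ v + w := c hX (by linarith)
  have X8 : v + w ≤ τ0 + s ^ 3 * h := c hX (by linarith)
  have X9 : v0 ≤ v := c hX x9
  have X10 : v ≤ v0 + s ^ 2 * h := c hX x10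
  have Y5 : s ^ 2 / 4 ≤ v' + w' := c hY (by linarith)
  have Y6 : v' + w' ≤ s ^ 2 := c hY (by linarith)
  have Y7 : τ0 ≤ v' + w' := c hY (by linarith)
  have Y8 : v' + w' ≤ τ0 + s ^ 3 * h := c hY (by linarith)
  have Y9 : v0 ≤ v' := c hY y9
  have Y10 : v' ≤ v0 + s ^ 2 * h := c hY y10
  have Y1 : 0 ≤ v' := c1 hY y1
  have Y2 : 0 ≤ w' := c1 hY y2
  have Y3 : v' ≤ 1 := c hY (by linarith)
  have Y4 : w' ≤ 1 := c hY (by linarith)
  have hdτ : |(v' + w') - (v + w)| ≤ s ^ 3 * h := by rw [abs_le]; constructor <;> linarith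
  have hdv : |v' - v| ≤ s ^ 2 * h := by rw [abs_le]; constructor <;> linarith
  have hcore := core_ineq s h v w v' w' hs0 hs2 hh Y1 Y2 Y3 Y4 Y5 Y6 hdτ hdv
  set ε := 16 * s * h with hε
  have hε0 : 0 ≤ ε := by rw [hε]; positivity
  -- coordinates
  have k0 : (((1 + ε) * (X / Y)) • y - x) p = X * ε := by
    simp only [Pi.sub_apply, Pi.smul_apply, smul_eq_mul, ← hXdef, ← hYdef]
    field_simp
    ring
  have k1 : (((1 + ε) * (X / Y)) • y - x) (p + 1) = X * ((1 + ε) * v' - v) := by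
    simp only [Pi.sub_apply, Pi.smul_apply, smul_eq_mul, hv, hv']
    field_simp
  have k2 : (((1 + ε) * (X / Y)) • y - x) (p + 2) = X * ((1 + ε) * w' - w) := by
    simp only [Pi.sub_apply, Pi.smul_apply, smul_eq_mul, hw, hw']
    field_simp
  refine ⟨?_, ?_⟩
  · rw [Q_cyc p, k0, k1, k2]
    have : X * ε * (X * ((1 + ε) * v' - v)) +
        X * ((1 + ε) * v' - v) * (X * ((1 + ε) * w' - w)) +
        X * ((1 + ε) * w' - w) * (X * ε) = X ^ 2 * (ε ^ 2 * (v' + w' + v' * w') +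
      ε * (((v' + w') - (v + w)) * (1 + v') + (v' - v) * (w' - v')) +
      (v' - v) * (((v' + w') - (v + w)) - (v' - v))) := by ring
    rw [this]
    exact mul_nonneg (sq_nonneg _) hcore
  · rw [Sg_cyc p, k0, k1, k2]
    have h1 : X * ε + X * ((1 + ε) * v' - v) + X * ((1 + ε) * w' - w) =
        X * (ε * (1 + (v' + w')) + ((v' + w') - (v + w))) := by ring
    rw [h1]
    apply mul_nonneg hX.le
    have h2 := (abs_le.mp hdτ).1
    have h3 : s ^ 3 * h ≤ ε := by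
      rw [hε]
      have : s ^ 2 ≤ 4 := by nlinarith
      have h4 : s ^ 3 * h = s ^ 2 * (s * h) := by ring
      rw [h4]
      nlinarith [mul_nonneg hs0.le hh]
    have h5 : 0 ≤ ε * (v' + w') := mul_nonneg hε0 (by linarith)
    linarith

lemma box_dd {s h τ0 v0 : ℝ} {p : Fin 3} (hs0 : 0 < s) (hs2 : s ≤ 2) (hh : 0 ≤ h)
    {x y : Fin 3 → ℝ} (hx : x ∈ Box s h τ0 v0 p) (hy : y ∈ Box s h τ0 v0 p) :
    dd x y ≤ 16 * s * h := by
  obtain ⟨h1, h2⟩ := box_aux hs0 hs2 hh hx hy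
  obtain ⟨h3, h4⟩ := box_aux hs0 hs2 hh hy hx
  refine dd_le hx.1 hy.1 (by positivity) h2 h4 ?_
  have : (1 + 16 * s * h) * (x p / y p) * ((1 + 16 * s * h) * (y p / x p)) =
      (1 + 16 * s * h) ^ 2 := by
    field_simp
  rw [this]

/-- The scale. -/
noncomputable def sc (k : ℕ) : ℝ := 2 * (1 / 2) ^ k

lemma sc_pos (k : ℕ) : 0 < sc k := by unfold sc; positivity

lemma sc_le (k : ℕ) : sc k ≤ 2 := by
  unfold sc
  have : ((1 : ℝ) / 2) ^ k ≤ 1 := pow_le_one₀ (by norm_num) (by norm_num)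
  linarith

lemma sc_sq (k : ℕ) : (sc k) ^ 2 = 4 * (1 / 4) ^ k := by
  unfold sc
  rw [mul_pow, ← pow_mul, mul_comm k 2, pow_mul]
  norm_num

/-- The cover. -/
noncomputable def UU (N : ℕ) (q : ℕ × ℕ × ℕ × ℕ) : Set (Fin 3 → ℝ) :=
  if h : q.1 < 3 ∧ q.2.2.1 < N * 2 ^ q.2.1 + 1 ∧ q.2.2.2 < N + 1 then
    Box (sc q.2.1) (1 / N) (q.2.2.1 * ((sc q.2.1) ^ 3 * (1 / N)))
      (q.2.2.2 * ((sc q.2.1) ^ 2 * (1 / N))) ⟨q.1, h.1⟩
  else ∅

lemma UU_sub (N : ℕ) (q : ℕ × ℕ × ℕ × ℕ) : UU N q ⊆ C := by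
  unfold UU
  split_ifs
  · exact fun x hx => hx.1
  · exact Set.empty_subset _

lemma F_sub (N : ℕ) (hN : 0 < N) : F ⊆ ⋃ q, UU N q := by
  intro x hx
  obtain ⟨hxC, hx0⟩ := hx
  -- the maximal coordinate
  obtain ⟨p, hp⟩ : ∃ p : Fin 3, ∀ i, x i ≤ x p := by
    obtain ⟨p, -, hp⟩ := Finset.exists_max_image Finset.univ x ⟨0, Finset.mem_univ _⟩
    exact ⟨p, fun i => hp i (Finset.mem_univ _)⟩
  have hX : 0 < x p := by
    rcases (hx0 p).eq_or_lt with h | h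
    · exfalso
      have h1 : ∀ i, x i = 0 := fun i => le_antisymm ((hp i).trans h.ge) (hx0 i)
      have h2 := hxC.1
      unfold Q at h2
      rw [h1, h1, h1] at h2
      simp at h2
    · exact h
  set X := x p with hXd
  set τ : ℝ := (x (p + 1) + x (p + 2)) / X with hτ
  set v : ℝ := x (p + 1) / X with hv
  have hτX : x (p + 1) + x (p + 2) = τ * X := by rw [hτ]; field_simp
  have hvX : x (p + 1) = v * X := by rw [hv]; field_simp
  have hτ0 : 0 < τ := by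
    rw [hτ]
    apply div_pos _ hX
    have h1 := hx0 (p + 1)
    have h2 := hx0 (p + 2)
    by_contra h
    push Not at h
    have h3 : x (p + 1) = 0 := by linarith
    have h4 : x (p + 2) = 0 := by linarith
    have h5 := hxC.1
    rw [Q_cyc p, h3, h4] at h5
    simp at h5
  have hτ2 : τ ≤ 2 := by
    rw [hτ, div_le_iff₀ hX]
    linarith [hp (p + 1), hp (p + 2)]
  have hv0 : 0 ≤ v := div_nonneg (hx0 _) hX.le
  have hvτ : v ≤ τ := by
    rw [hv, hτ]
    apply div_le_div_of_nonneg_right _ hX.le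
    linarith [hx0 (p + 2)]
  obtain ⟨k, hk1, hk2⟩ := exists_nat_pow_near_of_lt_one (x := τ / 4) (y := (1 / 4 : ℝ))
    (by positivity) (by linarith) (by norm_num) (by norm_num)
  have hs := sc_pos k
  have hτs : τ ≤ (sc k) ^ 2 := by rw [sc_sq]; linarith
  have hτs' : (sc k) ^ 2 / 4 ≤ τ := by
    rw [sc_sq]
    rw [pow_succ] at hk1
    linarith
  have hNr : (0 : ℝ) < N := by exact_mod_cast hN
  set s := sc k with hsdef
  set Δ : ℝ := s ^ 3 * (1 / N) with hΔ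
  set δ : ℝ := s ^ 2 * (1 / N) with hδ
  have hΔ0 : 0 < Δ := by rw [hΔ]; positivity
  have hδ0 : 0 < δ := by rw [hδ]; positivity
  set i := ⌊τ / Δ⌋₊ with hi
  set j := ⌊v / δ⌋₊ with hj
  have hi1 : (i : ℝ) * Δ ≤ τ := by
    have := Nat.floor_le (show 0 ≤ τ / Δ by positivity)
    rwa [← hi, le_div_iff₀ hΔ0] at this
  have hi2 : τ ≤ (i : ℝ) * Δ + Δ := by
    have := (Nat.lt_floor_add_one (τ / Δ)).le
    rw [← hi, div_le_iff₀ hΔ0] at this
    linarith
  have hj1 : (j : ℝ) * δ ≤ v := by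
    have := Nat.floor_le (show 0 ≤ v / δ by positivity)
    rwa [← hj, le_div_iff₀ hδ0] at this
  have hj2 : v ≤ (j : ℝ) * δ + δ := by
    have := (Nat.lt_floor_add_one (v / δ)).le
    rw [← hj, div_le_iff₀ hδ0] at this
    linarith
  have hilt : i < N * 2 ^ k + 1 := by
    have h1 : (i : ℝ) * Δ ≤ s ^ 2 := hi1.trans hτs
    have h2 : (i : ℝ) * s ≤ N := by
      have h3 : (i : ℝ) * Δ = ((i : ℝ) * s) * s ^ 2 / N := by rw [hΔ]; field_simp
      rw [h3, div_le_iff₀ hNr] at h1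
      have hs2 : 0 < s ^ 2 := by positivity
      nlinarith
    have h4 : s = 2 * (1 / 2) ^ k := rfl
    have h5 : (i : ℝ) * 2 ≤ N * 2 ^ k := by
      have h6 : ((1 : ℝ) / 2) ^ k * 2 ^ k = 1 := by rw [← mul_pow]; norm_num
      have h7 : (i : ℝ) * s * 2 ^ k ≤ N * 2 ^ k := mul_le_mul_of_nonneg_right h2 (by positivity)
      rw [h4] at h7
      calc (i : ℝ) * 2 = (i : ℝ) * (2 * (1 / 2) ^ k) * 2 ^ k := by
            rw [mul_assoc, mul_assoc, h6, mul_one]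
        _ ≤ _ := h7
    have h8 : (i : ℝ) ≤ N * 2 ^ k := by
      have : (0 : ℝ) ≤ i := Nat.cast_nonneg _
      linarith
    have h9 : i ≤ N * 2 ^ k := by exact_mod_cast h8
    omega
  have hjlt : j < N + 1 := by
    have h1 : (j : ℝ) * δ ≤ s ^ 2 := hj1.trans (hvτ.trans hτs)
    have h2 : (j : ℝ) ≤ N := by
      have h3 : (j : ℝ) * δ = (j : ℝ) * s ^ 2 / N := by rw [hδ]; field_simp
      rw [h3, div_le_iff₀ hNr] at h1
      have hs2 : 0 < s ^ 2 := by positivity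
      nlinarith
    have h9 : j ≤ N := by exact_mod_cast h2
    omega
  rw [Set.mem_iUnion]
  refine ⟨(p.val, k, i, j), ?_⟩
  unfold UU
  rw [dif_pos ⟨p.isLt, hilt, hjlt⟩]
  refine ⟨hxC, hx0 _, hx0 _, hp _, hp _, ?_, ?_, ?_, ?_, ?_, ?_⟩
  · change s ^ 2 / 4 * X ≤ x (p + 1) + x (p + 2)
    rw [hτX]; exact mul_le_mul_of_nonneg_right hτs' hX.le
  · change x (p + 1) + x (p + 2) ≤ s ^ 2 * X
    rw [hτX]; exact mul_le_mul_of_nonneg_right hτs hX.le
  · change (i : ℝ) * Δ * X ≤ x (p + 1) + x (p + 2)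
    rw [hτX]; exact mul_le_mul_of_nonneg_right hi1 hX.le
  · change x (p + 1) + x (p + 2) ≤ ((i : ℝ) * Δ + Δ) * X
    rw [hτX]; exact mul_le_mul_of_nonneg_right hi2 hX.le
  · change (j : ℝ) * δ * X ≤ x (p + 1)
    rw [hvX]; exact mul_le_mul_of_nonneg_right hj1 hX.le
  · change x (p + 1) ≤ ((j : ℝ) * δ + δ) * X
    rw [hvX]; exact mul_le_mul_of_nonneg_right hj2 hX.le

/-- Diameter. -/
noncomputable def dm (U : Set (Fin 3 → ℝ)) : ENNReal :=
  ⨆ x ∈ U, ⨆ y ∈ U, ENNReal.ofReal (dd x y)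

lemma dm_UU_le (N : ℕ) (q : ℕ × ℕ × ℕ × ℕ) :
    dm (UU N q) ≤ if q.1 < 3 ∧ q.2.2.1 < N * 2 ^ q.2.1 + 1 ∧ q.2.2.2 < N + 1 then
      ENNReal.ofReal (16 * sc q.2.1 * (1 / N)) else 0 := by
  unfold dm UU
  split_ifs with h
  · refine iSup₂_le fun x hx => iSup₂_le fun y hy => ?_
    exact ENNReal.ofReal_le_ofReal (box_dd (sc_pos _) (sc_le _) (by positivity) hx hy)
  · simp

lemma tsum_ite_lt (B : ℕ) (c : ENNReal) : ∑' j : ℕ, (if j < B then c else 0) = B * c := by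
  rw [tsum_eq_sum (s := Finset.range B)]
  · rw [Finset.sum_congr rfl (g := fun _ => c)]
    · simp
    · intro j hj
      rw [if_pos (Finset.mem_range.mp hj)]
  · intro j hj
    rw [Finset.mem_range] at hj
    rw [if_neg hj]

lemma total_le (N : ℕ) (hN : 0 < N) :
    ∑' q : ℕ × ℕ × ℕ × ℕ, dm (UU N q) ^ 2 ≤ 24576 := by
  have h1 : ∀ q : ℕ × ℕ × ℕ × ℕ, dm (UU N q) ^ 2 ≤
      (if q.1 < 3 then (if q.2.2.1 < N * 2 ^ q.2.1 + 1 then (if q.2.2.2 < N + 1 then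
        ENNReal.ofReal (16 * sc q.2.1 * (1 / N)) ^ 2 else 0) else 0) else 0) := by
    intro q
    have h2 := dm_UU_le N q
    by_cases ha : q.1 < 3
    · by_cases hb : q.2.2.1 < N * 2 ^ q.2.1 + 1
      · by_cases hc : q.2.2.2 < N + 1
        · rw [if_pos ⟨ha, hb, hc⟩] at h2
          rw [if_pos ha, if_pos hb, if_pos hc]
          exact pow_le_pow_left₀ zero_le h2 2
        · rw [if_neg (fun h => hc h.2.2)] at h2
          rw [nonpos_iff_eq_zero.mp h2]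
          simp
      · rw [if_neg (fun h => hb h.2.1)] at h2
        rw [nonpos_iff_eq_zero.mp h2]
        simp
    · rw [if_neg (fun h => ha h.1)] at h2
      rw [nonpos_iff_eq_zero.mp h2]
      simp
  refine (ENNReal.tsum_le_tsum h1).trans ?_
  rw [ENNReal.tsum_prod']
  have h2 : ∀ a : ℕ, ∑' b : ℕ × ℕ × ℕ, (if a < 3 then (if b.2.1 < N * 2 ^ b.1 + 1 then
      (if b.2.2 < N + 1 then ENNReal.ofReal (16 * sc b.1 * (1 / N)) ^ 2 else 0) else 0) else 0) ≤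
      if a < 3 then 8192 else 0 := by
    intro a
    by_cases ha : a < 3
    · simp only [if_pos ha]
      rw [ENNReal.tsum_prod']
      have h3 : ∀ k : ℕ, ∑' b : ℕ × ℕ, (if b.1 < N * 2 ^ k + 1 then
          (if b.2 < N + 1 then ENNReal.ofReal (16 * sc k * (1 / N)) ^ 2 else 0) else 0) ≤
          ENNReal.ofReal (4096 * (1 / 2) ^ k) := by
        intro k
        rw [ENNReal.tsum_prod']
        have h4 : ∀ i : ℕ, ∑' j : ℕ, (if i < N * 2 ^ k + 1 then
          (if j < N + 1 then ENNReal.ofReal (16 * sc k * (1 / N)) ^ 2 else 0) else 0) =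
          if i < N * 2 ^ k + 1 then ((N + 1 : ℕ) : ENNReal) *
            ENNReal.ofReal (16 * sc k * (1 / N)) ^ 2 else 0 := by
          intro i
          by_cases hi : i < N * 2 ^ k + 1
          · simp only [if_pos hi]
            rw [tsum_ite_lt]
          · simp only [if_neg hi]
            exact tsum_zero
        simp only [h4]
        rw [tsum_ite_lt]
        have h5 : ENNReal.ofReal (16 * sc k * (1 / N)) ^ 2 =
            ENNReal.ofReal ((16 * sc k * (1 / N)) ^ 2) := by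
          rw [ENNReal.ofReal_pow]
          have := sc_pos k
          positivity
        rw [h5]
        have h6 : ((N * 2 ^ k + 1 : ℕ) : ENNReal) = ENNReal.ofReal ((N * 2 ^ k + 1 : ℕ) : ℝ) := by
          rw [ENNReal.ofReal_natCast]
        have h7 : ((N + 1 : ℕ) : ENNReal) = ENNReal.ofReal ((N + 1 : ℕ) : ℝ) := by
          rw [ENNReal.ofReal_natCast]
        rw [h6, h7, ← ENNReal.ofReal_mul (Nat.cast_nonneg _), ← ENNReal.ofReal_mul (Nat.cast_nonneg _)]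
        apply ENNReal.ofReal_le_ofReal
        have hNr : (1 : ℝ) ≤ N := by exact_mod_cast hN
        have hN0 : (0 : ℝ) < N := by linarith
        push_cast
        have e1 : (N : ℝ) * 2 ^ k + 1 ≤ 2 * N * 2 ^ k := by
          have : (1 : ℝ) ≤ 2 ^ k := one_le_pow₀ (by norm_num)
          nlinarith
        have e2 : (N : ℝ) + 1 ≤ 2 * N := by linarith
        have e3 : (16 * sc k * (1 / N)) ^ 2 = 1024 * (1 / 4) ^ k / (N : ℝ) ^ 2 := by
          rw [mul_pow, mul_pow, sc_sq]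
          field_simp
          ring
        rw [e3]
        have e4 : (0 : ℝ) ≤ 1024 * (1 / 4) ^ k / (N : ℝ) ^ 2 := by positivity
        calc ((N : ℝ) * 2 ^ k + 1) * ((N + 1) * (1024 * (1 / 4) ^ k / (N : ℝ) ^ 2))
            ≤ (2 * N * 2 ^ k) * ((2 * N) * (1024 * (1 / 4) ^ k / (N : ℝ) ^ 2)) := by
              apply mul_le_mul e1 _ (by positivity) (by positivity)
              exact mul_le_mul_of_nonneg_right e2 e4
          _ = 4096 * (2 ^ k * (1 / 4) ^ k) := by field_simp; ring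
          _ = 4096 * (1 / 2) ^ k := by rw [← mul_pow]; norm_num
      refine (ENNReal.tsum_le_tsum h3).trans ?_
      rw [← ENNReal.ofReal_tsum_of_nonneg (fun k => by positivity)
        ((summable_geometric_of_lt_one (by norm_num) (by norm_num)).mul_left _)]
      rw [tsum_mul_left, tsum_geometric_of_lt_one (by norm_num) (by norm_num)]
      norm_num
    · simp [if_neg ha]
  refine (ENNReal.tsum_le_tsum h2).trans ?_
  rw [tsum_ite_lt]
  norm_num

/-- The Hausdorff measure. -/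
noncomputable def HH (F : Set (Fin 3 → ℝ)) : ENNReal :=
  ⨆ (r : ℝ) (_ : 0 < r), ⨅ (U : ℕ → Set (Fin 3 → ℝ))
        (_ : F ⊆ ⋃ i, U i) (_ : ∀ i, U i ⊆ C ∧ dm (U i) ≤ ENNReal.ofReal r),
        ∑' i, dm (U i) ^ 2

lemma HH_F_le : HH F ≤ 24576 := by
  unfold HH
  refine iSup₂_le fun r hr => ?_
  obtain ⟨N, hN⟩ := exists_nat_gt (32 / r)
  have hN0 : 0 < N := by
    have : (0 : ℝ) < N := lt_trans (by positivity) hN
    exact_mod_cast this
  have hNr : (0 : ℝ) < N := by exact_mod_cast hN0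
  let e : ℕ × ℕ × ℕ × ℕ ≃ ℕ := Denumerable.eqv _
  refine iInf_le_of_le (fun n => UU N (e.symm n)) ?_
  refine iInf_le_of_le ?_ ?_
  · intro x hx
    obtain ⟨q, hq⟩ := Set.mem_iUnion.mp (F_sub N hN0 hx)
    exact Set.mem_iUnion.mpr ⟨e q, by simpa using hq⟩
  refine iInf_le_of_le ?_ ?_
  · intro n
    refine ⟨UU_sub _ _, (dm_UU_le N _).trans ?_⟩
    split_ifs
    · apply ENNReal.ofReal_le_ofReal
      have h1 := sc_le (e.symm n).2.1
      have h2 : 16 * sc (e.symm n).2.1 * (1 / N) ≤ 32 * (1 / N) := by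
        apply mul_le_mul_of_nonneg_right _ (by positivity)
        linarith
      refine h2.trans ?_
      rw [mul_one_div, div_le_iff₀ hNr]
      rw [div_lt_iff₀ hr] at hN
      linarith
    · exact zero_le
  · rw [Equiv.tsum_eq e.symm (fun q => dm (UU N q) ^ 2)]
    exact total_le N hN0

end Pool.Agent.Y455.Quad
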